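import Pool.Agent.Work.MP_db9399_all.Interface

/-!
# Block CNT: the counting lemma
-/

set_option autoImplicit false

namespace Pool.Agent.Work.MP_db9399_all

open Finset Classical

universe u

namespace CNTaux

variable {V : Type u} [Fintype V]

/-- good partial colourings of `T` (zero outside `T`) -/
noncomputable def Gd (G : SimpleGraph V) (t : V → V → ℕ) (L : V → Finset ℕ) (K : ℕ)
    (T : Finset V) : Finset (V → ℕ) :=
  (Fintype.piFinset (fun x => if x ∈ T then L x else {0})).filter (fun c =>
    (∀ x ∈ T, ∀ y ∈ T, G.Adj x y → c x ≠ c y) ∧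
      ∀ v, ((nb G v ∩ T).filter (fun x => c x = t v x)).card ≤ K)

theorem mem_Gd {G : SimpleGraph V} {t : V → V → ℕ} {L : V → Finset ℕ} {K : ℕ} {T : Finset V}
    {c : V → ℕ} : c ∈ Gd G t L K T ↔ (∀ x ∈ T, c x ∈ L x) ∧ (∀ x, x ∉ T → c x = 0) ∧
      (∀ x ∈ T, ∀ y ∈ T, G.Adj x y → c x ≠ c y) ∧
      ∀ v, ((nb G v ∩ T).filter (fun x => c x = t v x)).card ≤ K := by
  unfold Gd
  rw [mem_filter, Fintype.mem_piFinset]
  constructor
  · rintro ⟨h1, h2, h3⟩
    refine ⟨fun x hx => by simpa [hx] using h1 x, fun x hx => by simpa [hx] using h1 x, h2, h3⟩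
  · rintro ⟨h0, h1, h2, h3⟩
    refine ⟨fun x => ?_, h2, h3⟩
    by_cases hx : x ∈ T
    · simpa [hx] using h0 x hx
    · simpa [hx] using h1 x hx

/-- restriction -/
theorem restrict {G : SimpleGraph V} {t : V → V → ℕ} {L : V → Finset ℕ} {K : ℕ} {T : Finset V}
    {c : V → ℕ} (hc : c ∈ Gd G t L K T) (X : Finset V) :
    (fun y => if y ∈ X then 0 else c y) ∈ Gd G t L K (T \ X) := by
  rw [mem_Gd] at hc ⊢
  obtain ⟨h0, h1, h2, h3⟩ := hc
  refine ⟨?_, ?_, ?_, ?_⟩
  · intro x hx
    rw [mem_sdiff] at hx
    simp only [if_neg hx.2]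
    exact h0 x hx.1
  · intro x hx
    by_cases hX : x ∈ X
    · simp [hX]
    · simp only [if_neg hX]
      apply h1
      intro hT
      exact hx (mem_sdiff.2 ⟨hT, hX⟩)
  · intro x hx y hy hxy
    rw [mem_sdiff] at hx hy
    simp only [if_neg hx.2, if_neg hy.2]
    exact h2 x hx.1 y hy.1 hxy
  · intro v
    refine le_trans (card_le_card ?_) (h3 v)
    intro y hy
    rw [mem_filter, mem_inter, mem_sdiff] at hy
    rw [mem_filter, mem_inter]
    obtain ⟨⟨hy1, hy2, hy3⟩, hy4⟩ := hy
    simp only [if_neg hy3] at hy4
    exact ⟨⟨hy1, hy2⟩, hy4⟩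

theorem mem_nb {G : SimpleGraph V} {v w : V} : w ∈ nb G v ↔ G.Adj v w := by
  unfold nb
  simp

/-- the pairs (colouring, new colour) -/
noncomputable def Pairs (G : SimpleGraph V) (t : V → V → ℕ) (L : V → Finset ℕ) (K : ℕ)
    (T : Finset V) (x : V) : Finset (Σ _ : V → ℕ, ℕ) :=
  (Gd G t L K T).sigma (fun c => L x \ (nb G x ∩ T).image c)

/-- the bad pairs of type `(v, X)` -/
noncomputable def BadP (G : SimpleGraph V) (t : V → V → ℕ) (L : V → Finset ℕ) (K : ℕ)
    (T : Finset V) (x v : V) (X : Finset V) : Finset (Σ _ : V → ℕ, ℕ) :=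
  (Pairs G t L K T x).filter (fun q => q.2 = t v x ∧ ∀ y ∈ X, q.1 y = t v y)

theorem card_BadP {G : SimpleGraph V} {t : V → V → ℕ} {L : V → Finset ℕ} {K : ℕ} {T : Finset V}
    {x v : V} {X : Finset V} :
    (BadP G t L K T x v X).card ≤ (Gd G t L K (T \ X)).card := by
  apply card_le_card_of_injOn (fun q => fun y => if y ∈ X then 0 else q.1 y)
  · intro q hq
    have hq' := mem_coe.1 hq
    unfold BadP Pairs at hq'
    rw [mem_filter, mem_sigma] at hq'
    exact mem_coe.2 (restrict hq'.1.1 X)
  · rintro ⟨c, a⟩ hq ⟨c', a'⟩ hq' heq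
    have h1 := mem_coe.1 hq
    have h2 := mem_coe.1 hq'
    unfold BadP at h1 h2
    rw [mem_filter] at h1 h2
    have ha : a = a' := by
      have e1 : a = t v x := h1.2.1
      have e2 : a' = t v x := h2.2.1
      rw [e1, e2]
    have hc : c = c' := by
      funext y
      by_cases hy : y ∈ X
      · have e1 : c y = t v y := h1.2.2 y hy
        have e2 : c' y = t v y := h2.2.2 y hy
        rw [e1, e2]
      · have := congrFun heq y
        simpa [hy] using this
    rw [ha, hc]

/-- a pair is good or bad -/
theorem good_or_bad {G : SimpleGraph V} {t : V → V → ℕ} {L : V → Finset ℕ} {K : ℕ} {T : Finset V}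
    {x : V} (hx : x ∉ T) {q : Σ _ : V → ℕ, ℕ} (hq : q ∈ Pairs G t L K T x) :
    Function.update q.1 x q.2 ∈ Gd G t L K (insert x T) ∨
      ∃ v ∈ nb G x, ∃ X ∈ powersetCard K (nb G v ∩ T), q ∈ BadP G t L K T x v X := by
  obtain ⟨c, a⟩ := q
  have hq0 := hq
  unfold Pairs at hq
  rw [mem_sigma] at hq
  obtain ⟨hc, ha⟩ := hq
  rw [mem_Gd] at hc
  obtain ⟨h0, h1, h2, h3⟩ := hc
  change a ∈ _ at ha
  rw [mem_sdiff, mem_image] at ha
  obtain ⟨ha1, ha2⟩ := ha
  have hupd : ∀ y ∈ T, Function.update c x a y = c y := by
    intro y hy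
    rw [Function.update_of_ne]
    rintro rfl
    exact hx hy
  by_cases hload : ∀ v, ((nb G v ∩ insert x T).filter
      (fun y => Function.update c x a y = t v y)).card ≤ K
  · left
    rw [mem_Gd]
    refine ⟨?_, ?_, ?_, hload⟩
    · intro y hy
      rcases mem_insert.1 hy with rfl | hy
      · rw [Function.update_self]; exact ha1
      · change Function.update c x a y ∈ L y
        rw [hupd y hy]; exact h0 y hy
    · intro y hy
      rw [mem_insert, not_or] at hy
      change Function.update c x a y = 0
      rw [Function.update_of_ne hy.1]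
      exact h1 y hy.2
    · intro y hy z hz hyz
      change Function.update c x a y ≠ Function.update c x a z
      rcases mem_insert.1 hy with hyx | hyT
      · rcases mem_insert.1 hz with hzx | hzT
        · subst hyx; subst hzx; exact absurd hyz (G.irrefl)
        · subst hyx
          rw [Function.update_self, hupd z hzT]
          intro h
          exact ha2 ⟨z, mem_inter.2 ⟨mem_nb.2 hyz, hzT⟩, h.symm⟩
      · rcases mem_insert.1 hz with hzx | hzT
        · rw [hzx, Function.update_self, hupd y hyT]
          intro h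
          exact ha2 ⟨y, mem_inter.2 ⟨mem_nb.2 (hzx ▸ hyz.symm), hyT⟩, h⟩
        · rw [hupd y hyT, hupd z hzT]
          exact h2 y hyT z hzT hyz
  · right
    push Not at hload
    obtain ⟨v, hv⟩ := hload
    -- the old load set
    set O := (nb G v ∩ T).filter (fun y => c y = t v y) with hO
    have hsub : (nb G v ∩ insert x T).filter (fun y => Function.update c x a y = t v y) ⊆
        insert x O := by
      intro y hy
      rw [mem_filter, mem_inter, mem_insert] at hy
      obtain ⟨⟨hy1, hy2⟩, hy3⟩ := hy
      rcases hy2 with rfl | hy2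
      · exact mem_insert_self _ _
      · rw [hupd y hy2] at hy3
        exact mem_insert_of_mem (mem_filter.2 ⟨mem_inter.2 ⟨hy1, hy2⟩, hy3⟩)
    have hxO : x ∉ O := by
      rw [hO, mem_filter, mem_inter]
      rintro ⟨⟨_, h⟩, _⟩
      exact hx h
    have hxin : x ∈ (nb G v ∩ insert x T).filter (fun y => Function.update c x a y = t v y) := by
      by_contra hn
      have hsub' : (nb G v ∩ insert x T).filter (fun y => Function.update c x a y = t v y) ⊆
          O := by
        intro y hy
        rcases mem_insert.1 (hsub hy) with rfl | h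
        · exact absurd hy hn
        · exact h
      have := (card_le_card hsub').trans (h3 v)
      omega
    rw [mem_filter, mem_inter, Function.update_self] at hxin
    have hcard : K ≤ O.card := by
      have := card_le_card hsub
      rw [card_insert_of_notMem hxO] at this
      omega
    obtain ⟨X, hX1, hX2⟩ := exists_subset_card_eq hcard
    refine ⟨v, mem_nb.2 (mem_nb.1 hxin.1.1).symm, X, ?_, ?_⟩
    · rw [mem_powersetCard]
      exact ⟨fun y hy => (mem_filter.1 (hX1 hy)).1, hX2⟩
    · unfold BadP
      rw [mem_filter]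
      exact ⟨hq0, hxin.2, fun y hy => (mem_filter.1 (hX1 hy)).2⟩

/-- the counting inequality in natural numbers -/
theorem count {G : SimpleGraph V} {t : V → V → ℕ} {L : V → Finset ℕ} {K : ℕ} {T : Finset V}
    {x : V} (hx : x ∉ T) :
    (Pairs G t L K T x).card ≤ (Gd G t L K (insert x T)).card +
      ∑ v ∈ nb G x, ∑ X ∈ powersetCard K (nb G v ∩ T), (Gd G t L K (T \ X)).card := by
  set Pg := (Pairs G t L K T x).filter
    (fun q => Function.update q.1 x q.2 ∈ Gd G t L K (insert x T)) with hPg
  have hsub : Pairs G t L K T x ⊆ Pg ∪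
      (nb G x).biUnion (fun v => (powersetCard K (nb G v ∩ T)).biUnion
        (fun X => BadP G t L K T x v X)) := by
    intro q hq
    rcases good_or_bad hx hq with h | ⟨v, hv, X, hX, h⟩
    · exact mem_union_left _ (mem_filter.2 ⟨hq, h⟩)
    · apply mem_union_right
      rw [mem_biUnion]
      refine ⟨v, hv, ?_⟩
      rw [mem_biUnion]
      exact ⟨X, hX, h⟩
  have hg : Pg.card ≤ (Gd G t L K (insert x T)).card := by
    apply card_le_card_of_injOn (fun q => Function.update q.1 x q.2)
    · intro q hq
      exact mem_coe.2 (mem_filter.1 (mem_coe.1 hq)).2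
    · rintro ⟨c, a⟩ hq ⟨c', a'⟩ hq' heq
      have h1 := (mem_filter.1 (mem_coe.1 hq)).1
      have h2 := (mem_filter.1 (mem_coe.1 hq')).1
      unfold Pairs at h1 h2
      rw [mem_sigma] at h1 h2
      have hc := (mem_Gd.1 h1.1).2.1 x hx
      have hc' := (mem_Gd.1 h2.1).2.1 x hx
      change c x = 0 at hc
      change c' x = 0 at hc'
      change Function.update c x a = Function.update c' x a' at heq
      have ha : a = a' := by
        have := congrFun heq x
        simpa using this
      have hcc : c = c' := by
        funext y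
        by_cases hy : y = x
        · rw [hy, hc, hc']
        · have := congrFun heq y
          simpa [hy] using this
      rw [ha, hcc]
  calc (Pairs G t L K T x).card ≤ _ := card_le_card hsub
    _ ≤ Pg.card + _ := card_union_le _ _
    _ ≤ _ := by
      apply Nat.add_le_add hg
      refine card_biUnion_le.trans (sum_le_sum fun v _ => ?_)
      exact card_biUnion_le.trans (sum_le_sum fun X _ => card_BadP)

end CNTaux

open CNTaux in
theorem stmt_CNT : Stmt_CNT.{u} := by
  intro γ hγ
  -- choice of K
  obtain ⟨K, hK⟩ : ∃ K : ℕ, (2 / γ) ^ K / (K.factorial : ℝ) ≤ γ / 2 := by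
    have h1 := FloorSemiring.tendsto_pow_div_factorial_atTop (2 / γ)
    have h2 := h1.eventually_le_const (half_pos hγ)
    exact h2.exists
  refine ⟨K, ?_⟩
  intro V _ G Δ t U L hΔ hdeg hL
  have hΔ0 : (0 : ℝ) < Δ := by exact_mod_cast hΔ
  set β : ℝ := γ * Δ / 2 with hβ
  have hβ0 : 0 < β := by positivity
  -- the main claim
  have key : ∀ n : ℕ, ∀ T : Finset V, T ⊆ U → T.card = n → ∀ x ∈ U, x ∉ T →
      β * ((Gd G t L K T).card : ℝ) ≤ ((Gd G t L K (insert x T)).card : ℝ) := by
    intro n
    induction n using Nat.strong_induction_on with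
    | _ n ih =>
      intro T hTU hTn x hxU hxT
      -- consequence of the induction hypothesis
      have hA : ∀ X : Finset V, X ⊆ T →
          β ^ X.card * ((Gd G t L K (T \ X)).card : ℝ) ≤ ((Gd G t L K T).card : ℝ) := by
        intro X
        induction X using Finset.induction_on with
        | empty => intro _; simp
        | insert y X hy ihX =>
          intro hyX
          rw [insert_subset_iff] at hyX
          have h1 := ihX hyX.2
          have hyT : y ∉ T \ insert y X := by simp
          have h2 := ih (T \ insert y X).card (by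
            rw [← hTn]
            apply card_lt_card
            rw [ssubset_iff_of_subset sdiff_subset]
            exact ⟨y, hyX.1, hyT⟩) (T \ insert y X) (sdiff_subset.trans hTU) rfl y
              (hTU hyX.1) hyT
          have h3 : insert y (T \ insert y X) = T \ X := by
            ext z
            simp only [mem_insert, mem_sdiff]
            constructor
            · rintro (rfl | ⟨h, h'⟩)
              · exact ⟨hyX.1, hy⟩
              · push Not at h'
                exact ⟨h, h'.2⟩
            · rintro ⟨h, h'⟩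
              by_cases hz : z = y
              · exact Or.inl hz
              · right
                exact ⟨h, by push Not; exact ⟨hz, h'⟩⟩
          rw [h3] at h2
          rw [card_insert_of_notMem hy, pow_succ]
          calc β ^ X.card * β * ((Gd G t L K (T \ insert y X)).card : ℝ)
              = β ^ X.card * (β * ((Gd G t L K (T \ insert y X)).card : ℝ)) := by ring
            _ ≤ β ^ X.card * ((Gd G t L K (T \ X)).card : ℝ) :=
              mul_le_mul_of_nonneg_left h2 (by positivity)
            _ ≤ _ := h1
      set g : ℝ := ((Gd G t L K T).card : ℝ) with hg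
      have hg0 : 0 ≤ g := Nat.cast_nonneg _
      -- lower bound for the pairs
      have hP : γ * Δ * g ≤ ((Pairs G t L K T x).card : ℝ) := by
        unfold Pairs
        rw [card_sigma]
        push_cast
        have h1 : ∀ c ∈ Gd G t L K T, γ * Δ ≤
            (((L x \ (nb G x ∩ T).image c).card : ℕ) : ℝ) := by
          intro c _
          have h2 : (L x).card ≤ (L x \ (nb G x ∩ T).image c).card + ((nb G x ∩ T).image c).card := by
            have := card_le_card_sdiff_add_card (s := L x) (t := (nb G x ∩ T).image c)
            omega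
          have h3 : ((nb G x ∩ T).image c).card ≤ (nb G x ∩ U).card :=
            card_image_le.trans (card_le_card (inter_subset_inter_left hTU))
          have h4 := hL x hxU
          have h5 : ((L x).card : ℝ) ≤ ((L x \ (nb G x ∩ T).image c).card : ℝ) +
              ((nb G x ∩ U).card : ℝ) := by exact_mod_cast h2.trans (Nat.add_le_add_left h3 _)
          linarith
        calc γ * Δ * g = ∑ _c ∈ Gd G t L K T, γ * Δ := by
              rw [sum_const, nsmul_eq_mul]; ring
          _ ≤ _ := sum_le_sum h1
      have hcount := count (G := G) (t := t) (L := L) (K := K) hxT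
      have hcount' : ((Pairs G t L K T x).card : ℝ) ≤ ((Gd G t L K (insert x T)).card : ℝ) +
          ∑ v ∈ nb G x, ∑ X ∈ powersetCard K (nb G v ∩ T), ((Gd G t L K (T \ X)).card : ℝ) := by
        exact_mod_cast hcount
      -- upper bound for the bad pairs
      have hbad : ∑ v ∈ nb G x, ∑ X ∈ powersetCard K (nb G v ∩ T),
          ((Gd G t L K (T \ X)).card : ℝ) ≤ γ / 2 * Δ * g := by
        have h1 : ∀ v ∈ nb G x, ∑ X ∈ powersetCard K (nb G v ∩ T),
            ((Gd G t L K (T \ X)).card : ℝ) ≤ (γ / 2) * g := by
          intro v _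
          have h2 : ∀ X ∈ powersetCard K (nb G v ∩ T),
              ((Gd G t L K (T \ X)).card : ℝ) ≤ g / β ^ K := by
            intro X hX
            rw [mem_powersetCard] at hX
            have h3 := hA X (hX.1.trans inter_subset_right)
            rw [hX.2] at h3
            rw [le_div_iff₀ (by positivity)]
            linarith
          have h4 : ((powersetCard K (nb G v ∩ T)).card : ℝ) ≤ (Δ : ℝ) ^ K / K.factorial := by
            rw [card_powersetCard]
            have h5 : (nb G v ∩ T).card ≤ Δ := (card_le_card inter_subset_left).trans (hdeg v)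
            calc (((nb G v ∩ T).card.choose K : ℕ) : ℝ) ≤ ((Δ.choose K : ℕ) : ℝ) := by
                  exact_mod_cast Nat.choose_le_choose K h5
              _ ≤ _ := Nat.choose_le_pow_div K Δ
          calc ∑ X ∈ powersetCard K (nb G v ∩ T), ((Gd G t L K (T \ X)).card : ℝ)
              ≤ ∑ _X ∈ powersetCard K (nb G v ∩ T), g / β ^ K := sum_le_sum h2
            _ = ((powersetCard K (nb G v ∩ T)).card : ℝ) * (g / β ^ K) := by
              rw [sum_const, nsmul_eq_mul]
            _ ≤ (Δ : ℝ) ^ K / K.factorial * (g / β ^ K) :=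
              mul_le_mul_of_nonneg_right h4 (by positivity)
            _ = (2 / γ) ^ K / K.factorial * g := by
              have h6 : β ^ K = (γ / 2) ^ K * (Δ : ℝ) ^ K := by
                rw [hβ, ← mul_pow]
                congr 1
                ring
              rw [h6, div_pow, div_pow]
              field_simp
            _ ≤ (γ / 2) * g := mul_le_mul_of_nonneg_right hK hg0
        calc _ ≤ ∑ _v ∈ nb G x, (γ / 2) * g := sum_le_sum h1
          _ = ((nb G x).card : ℝ) * ((γ / 2) * g) := by rw [sum_const, nsmul_eq_mul]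
          _ ≤ Δ * ((γ / 2) * g) := by
            apply mul_le_mul_of_nonneg_right _ (by positivity)
            exact_mod_cast hdeg x
          _ = _ := by ring
      have hfin : β * g = γ * Δ * g - γ / 2 * Δ * g := by rw [hβ]; ring
      rw [hfin]
      linarith
  -- conclusion
  have hpos : ∀ T : Finset V, T ⊆ U → 0 < ((Gd G t L K T).card : ℝ) := by
    intro T
    induction T using Finset.induction_on with
    | empty =>
      intro _
      have h1 : (fun _ => 0) ∈ Gd G t L K ∅ := by
        rw [mem_Gd]
        refine ⟨by simp, by simp, by simp, by simp⟩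
      exact_mod_cast card_pos.2 ⟨_, h1⟩
    | insert x T hx ih =>
      intro hxT
      rw [insert_subset_iff] at hxT
      have h1 := key T.card T hxT.2 rfl x hxT.1 hx
      have h2 := ih hxT.2
      have : 0 < β * ((Gd G t L K T).card : ℝ) := mul_pos hβ0 h2
      linarith
  have hU := hpos U (Subset.refl U)
  obtain ⟨c, hc⟩ := card_pos.1 (by exact_mod_cast hU : 0 < (Gd G t L K U).card)
  rw [mem_Gd] at hc
  exact ⟨c, hc.1, hc.2.2.1, hc.2.2.2⟩

end Pool.Agent.Work.MP_db9399_all
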