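import Pool.Agent.Work.MP_db9399_all.Interface

/-!
# MP_db9399: SP1, the first random round, from STEP
-/

set_option autoImplicit false

namespace Pool.Agent.Work.MP_db9399_all

open Finset Classical

universe u v

namespace SP1

section defs
variable {V : Type u} [Fintype V]

theorem mem_nb {G : SimpleGraph V} {v w : V} : w ∈ nb G v ↔ G.Adj v w := by
  unfold nb; simp

theorem mem_ss {blk : V → Option V} {x : V} : x ∈ ss blk ↔ blk x = none := by
  unfold ss; simp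

theorem mem_dn {G : SimpleGraph V} {blk : V → Option V} {x z : V} :
    z ∈ dn G blk x ↔ G.Adj x z ∧ blk z ≠ none := by
  unfold dn; rw [mem_filter, mem_nb]

theorem mem_sn {G : SimpleGraph V} {blk : V → Option V} {x z : V} :
    z ∈ sn G blk x ↔ G.Adj x z ∧ blk z = none := by
  unfold sn; rw [mem_filter, mem_nb]

theorem mem_sbn {G : SimpleGraph V} {Δ : ℕ} {blk : V → Option V} {x z : V} :
    z ∈ sbn G Δ blk x ↔ G.Adj x z ∧ Sb G Δ blk z := by
  unfold sbn; rw [mem_filter, mem_nb]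

theorem sdiff_ss (G : SimpleGraph V) (blk : V → Option V) (x : V) :
    nb G x \ ss blk = dn G blk x := by
  ext z; rw [mem_sdiff, mem_nb, mem_ss, mem_dn]

/-- the second alternative of `PropP` -/
noncomputable def Wt (G : SimpleGraph V) (Δ : ℕ) (blk : V → Option V) (c : V → ℕ) (x : V) :
    Finset V :=
  (sn G blk x).filter (fun w => (Δ : ℝ) / 10 ^ 29 ≤
    ((((dn G blk x).image c) \ ((dn G blk w).image c)).card : ℝ))

/-- sparse neighbours which are not of type `Sb` -/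
noncomputable def Na (G : SimpleGraph V) (Δ : ℕ) (blk : V → Option V) (x : V) : Finset V :=
  (nb G x).filter (fun y => blk y = none ∧ ¬ Sb G Δ blk y)

noncomputable def Mb (G : SimpleGraph V) (Δ : ℕ) (blk : V → Option V) (x b : V) : Finset V :=
  (Na G Δ blk x).filter (fun y => y ≠ b ∧ ¬ G.Adj y b)

noncomputable def Lx (G : SimpleGraph V) (Δ : ℕ) (blk : V → Option V) (x : V) : Finset V :=
  (Na G Δ blk x).filter (fun b => (Δ : ℝ) / (4 * 10 ^ 26) ≤ ((Mb G Δ blk x b).card : ℝ))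

theorem mem_Na {G : SimpleGraph V} {Δ : ℕ} {blk : V → Option V} {x y : V} :
    y ∈ Na G Δ blk x ↔ G.Adj x y ∧ blk y = none ∧ ¬ Sb G Δ blk y := by
  unfold Na; rw [mem_filter, mem_nb]

theorem mem_Mb {G : SimpleGraph V} {Δ : ℕ} {blk : V → Option V} {x b y : V} :
    y ∈ Mb G Δ blk x b ↔ (G.Adj x y ∧ blk y = none ∧ ¬ Sb G Δ blk y) ∧ y ≠ b ∧ ¬ G.Adj y b := by
  unfold Mb; rw [mem_filter, mem_Na]

theorem nonSb_dn {G : SimpleGraph V} {Δ : ℕ} {blk : V → Option V} {y : V} (h0 : blk y = none)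
    (h : ¬ Sb G Δ blk y) : ((dn G blk y).card : ℝ) ≤ (Δ : ℝ) / 100 := by
  unfold Sb at h
  push Not at h
  exact (h h0).le

/-- many vertices `b` with large `M_b` -/
theorem Lx_card {G : SimpleGraph V} {Δ : ℕ} {blk : V → Option V} {x : V} (hΔ : 0 < Δ)
    (hdeg : (nb G x).card ≤ Δ)
    (hd : ((dn G blk x).card : ℝ) < (Δ : ℝ) / (4 * 10 ^ 26))
    (hs : ((sbn G Δ blk x).card : ℝ) < (Δ : ℝ) / (8 * 10 ^ 26))
    (hm : 2 * (1 / 10 ^ 13 : ℝ) ^ 2 * (Δ : ℝ) ^ 2 ≤ ((mis G (nb G x)).card : ℝ)) :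
    (Δ : ℝ) / 10 ^ 26 ≤ ((Lx G Δ blk x).card : ℝ) := by
  set n := nb G x with hn
  set D := dn G blk x ∪ sbn G Δ blk x with hD
  set L := Lx G Δ blk x with hL
  set Q := (Na G Δ blk x \ L).biUnion (fun b => (Mb G Δ blk x b).image (fun y => (b, y))) with hQ
  have hsub : mis G n ⊆ (D ×ˢ n ∪ n ×ˢ D) ∪ (L ×ˢ n ∪ Q) := by
    rintro ⟨a, b⟩ hab
    unfold mis at hab
    rw [mem_filter, mem_product] at hab
    obtain ⟨⟨ha, hb⟩, hne, hadj⟩ := hab
    simp only at ha hb hne hadj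
    rw [mem_union]
    by_cases haD : a ∈ D
    · left; rw [mem_union, mem_product]; exact Or.inl ⟨haD, hb⟩
    by_cases hbD : b ∈ D
    · left; rw [mem_union, mem_product, mem_product]; exact Or.inr ⟨ha, hbD⟩
    right
    have key : ∀ z, z ∈ n → z ∉ D → z ∈ Na G Δ blk x := by
      intro z hz hzD
      rw [hD, mem_union, not_or, mem_dn, mem_sbn] at hzD
      rw [hn, mem_nb] at hz
      rw [mem_Na]
      refine ⟨hz, ?_, fun h => hzD.2 ⟨hz, h⟩⟩
      by_contra h
      exact hzD.1 ⟨hz, h⟩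
    rw [mem_union, mem_product]
    by_cases haL : a ∈ L
    · exact Or.inl ⟨haL, hb⟩
    · right
      rw [hQ, mem_biUnion]
      refine ⟨a, mem_sdiff.2 ⟨key a ha haD, haL⟩, mem_image.2 ⟨b, ?_, rfl⟩⟩
      have h1 := key b hb hbD
      unfold Mb
      rw [mem_filter]
      exact ⟨h1, fun h => hne h.symm, fun h => hadj h.symm⟩
  have hDc : (D.card : ℝ) ≤ 3 / 8 * ((Δ : ℝ) / 10 ^ 26) := by
    have h1 : (D.card : ℝ) ≤ ((dn G blk x).card : ℝ) + ((sbn G Δ blk x).card : ℝ) := by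
      exact_mod_cast card_union_le _ _
    have h2 : (Δ : ℝ) / (4 * 10 ^ 26) = 2 / 8 * ((Δ : ℝ) / 10 ^ 26) := by ring
    have h3 : (Δ : ℝ) / (8 * 10 ^ 26) = 1 / 8 * ((Δ : ℝ) / 10 ^ 26) := by ring
    linarith
  have hnc : (n.card : ℝ) ≤ Δ := by exact_mod_cast hdeg
  have hQc : (Q.card : ℝ) ≤ (Δ : ℝ) * ((Δ : ℝ) / (4 * 10 ^ 26)) := by
    have h1 : (Q.card : ℝ) ≤ ∑ b ∈ Na G Δ blk x \ L, ((Mb G Δ blk x b).card : ℝ) := by
      have : Q.card ≤ ∑ b ∈ Na G Δ blk x \ L, (Mb G Δ blk x b).card :=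
        card_biUnion_le.trans (sum_le_sum fun b _ => card_image_le)
      exact_mod_cast this
    have h2 : ∀ b ∈ Na G Δ blk x \ L, ((Mb G Δ blk x b).card : ℝ) ≤ (Δ : ℝ) / (4 * 10 ^ 26) := by
      intro b hb
      rw [mem_sdiff, hL] at hb
      unfold Lx at hb
      rw [mem_filter] at hb
      by_contra h
      exact hb.2 ⟨hb.1, (not_le.1 h).le⟩
    have h3 := sum_le_sum h2
    rw [sum_const, nsmul_eq_mul] at h3
    have h4 : ((Na G Δ blk x \ L).card : ℝ) ≤ Δ := by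
      refine le_trans ?_ hnc
      have : Na G Δ blk x \ L ⊆ n := sdiff_subset.trans (filter_subset _ _)
      exact_mod_cast card_le_card this
    calc (Q.card : ℝ) ≤ _ := h1
      _ ≤ _ := h3
      _ ≤ _ := mul_le_mul_of_nonneg_right h4 (by positivity)
  have htot : ((mis G n).card : ℝ) ≤
      ((D.card : ℝ) * n.card + n.card * D.card) + (L.card * n.card + Q.card) := by
    have := card_le_card hsub
    have h2 : (mis G n).card ≤ (D.card * n.card + n.card * D.card) +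
        (L.card * n.card + Q.card) := by
      refine this.trans ((card_union_le _ _).trans (Nat.add_le_add ?_ ?_))
      · refine (card_union_le _ _).trans (le_of_eq ?_)
        rw [card_product, card_product]
      · refine (card_union_le _ _).trans (le_of_eq ?_)
        rw [card_product]
    exact_mod_cast h2
  have hΔ' : (0 : ℝ) < Δ := by exact_mod_cast hΔ
  have e1 : (D.card : ℝ) * n.card ≤ 3 / 8 * ((Δ : ℝ) / 10 ^ 26) * Δ :=
    mul_le_mul hDc hnc (Nat.cast_nonneg _) (by positivity)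
  have e2 : (L.card : ℝ) * n.card ≤ L.card * Δ :=
    mul_le_mul_of_nonneg_left hnc (Nat.cast_nonneg _)
  have e3 : (n.card : ℝ) * D.card ≤ 3 / 8 * ((Δ : ℝ) / 10 ^ 26) * Δ := by
    rw [mul_comm]; exact e1
  have e4 : 2 * (1 / 10 ^ 13 : ℝ) ^ 2 * (Δ : ℝ) ^ 2 = 2 * ((Δ : ℝ) / 10 ^ 26) * Δ := by
    ring
  have e5 : (Δ : ℝ) * ((Δ : ℝ) / (4 * 10 ^ 26)) = 1 / 4 * ((Δ : ℝ) / 10 ^ 26) * Δ := by ring
  have e6 : (Δ : ℝ) / 10 ^ 26 * Δ ≤ (L.card : ℝ) * Δ := by
    rw [e4] at hm; rw [e5] at hQc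
    nlinarith [hm, htot, e1, e2, e3, hQc]
  exact le_of_mul_le_mul_right e6 hΔ'

/-! ## The demands -/

noncomputable def MaF (G : SimpleGraph V) (Δ : ℕ) (blk : V → Option V) (c : V → ℕ) :
    V × Option V → Finset V
  | (x, none) => Wt G Δ blk c x
  | (x, some b) => Mb G Δ blk x b

noncomputable def BF (G : SimpleGraph V) (N : ℕ) (F : V → Finset ℕ) (blk : V → Option V)
    (c : V → ℕ) : V × Option V → V → Finset ℕ
  | (x, none), y => (((dn G blk x).image c) \ ((dn G blk y).image c)) \ F y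
  | (_, some b), y => av G N F c (ss blk) y ∩ av G N F c (ss blk) b

noncomputable def KF (G : SimpleGraph V) (Δ : ℕ) (blk : V → Option V) :
    V × Option V → V → Finset V
  | (_, none), y => nb G y ∩ ss blk
  | (x, some b), y => (nb G y ∩ ss blk) ∪ (nb G b ∩ ss blk) ∪ (Mb G Δ blk x b \ {y})

def PF (G : SimpleGraph V) (Δ : ℕ) (blk : V → Option V) (c : V → ℕ) : V × Option V → Prop
  | (x, none) => (Δ : ℝ) / 10 ^ 29 ≤ ((Wt G Δ blk c x).card : ℝ)
  | (x, some b) => (Δ : ℝ) / (4 * 10 ^ 26) ≤ ((Mb G Δ blk x b).card : ℝ) ∧ b ∈ Na G Δ blk x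

/-- the idle demands -/
noncomputable def MiF (G : SimpleGraph V) (Δ : ℕ) (blk : V → Option V) (x : V) : Finset V :=
  if (Δ : ℝ) / (8 * 10 ^ 26) ≤ ((sbn G Δ blk x).card : ℝ) then sbn G Δ blk x
    else Lx G Δ blk x

theorem MaF_sub_nb {G : SimpleGraph V} {Δ : ℕ} {blk : V → Option V} {c : V → ℕ}
    (d : V × Option V) : MaF G Δ blk c d ⊆ nb G d.1 := by
  obtain ⟨x, _ | b⟩ := d
  · intro y hy
    change y ∈ Wt G Δ blk c x at hy
    unfold Wt at hy
    rw [mem_filter, mem_sn] at hy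
    exact mem_nb.2 hy.1.1
  · intro y hy
    change y ∈ Mb G Δ blk x b at hy
    rw [mem_Mb] at hy
    exact mem_nb.2 hy.1.1

theorem MaF_sub_ss {G : SimpleGraph V} {Δ : ℕ} {blk : V → Option V} {c : V → ℕ}
    (d : V × Option V) : MaF G Δ blk c d ⊆ ss blk := by
  obtain ⟨x, _ | b⟩ := d
  · intro y hy
    change y ∈ Wt G Δ blk c x at hy
    unfold Wt at hy
    rw [mem_filter, mem_sn] at hy
    exact mem_ss.2 hy.1.2
  · intro y hy
    change y ∈ Mb G Δ blk x b at hy
    rw [mem_Mb] at hy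
    exact mem_ss.2 hy.1.2.1

theorem MiF_sub_nb {G : SimpleGraph V} {Δ : ℕ} {blk : V → Option V} (x : V) :
    MiF G Δ blk x ⊆ nb G x := by
  unfold MiF
  split_ifs
  · exact filter_subset _ _
  · exact (filter_subset _ _).trans (filter_subset _ _)

theorem MiF_sub_ss {G : SimpleGraph V} {Δ : ℕ} {blk : V → Option V} (x : V) :
    MiF G Δ blk x ⊆ ss blk := by
  unfold MiF
  split_ifs
  · intro y hy
    rw [mem_sbn] at hy
    exact mem_ss.2 hy.2.1
  · intro y hy
    unfold Lx at hy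
    rw [mem_filter, mem_Na] at hy
    exact mem_ss.2 hy.1.2.1

/-- the vertices at distance at most two -/
noncomputable def X1 (G : SimpleGraph V) (w : V) : Finset V := nb G w ∪ (nb G w).biUnion (nb G)

theorem X1_card {G : SimpleGraph V} {Δ : ℕ} (hdeg : ∀ v, (nb G v).card ≤ Δ) (w : V) :
    (X1 G w).card ≤ Δ + Δ * Δ := by
  unfold X1
  refine (card_union_le _ _).trans (Nat.add_le_add (hdeg w) ?_)
  refine card_biUnion_le.trans ?_
  refine (sum_le_card_nsmul _ _ Δ fun v _ => hdeg v).trans ?_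
  rw [smul_eq_mul]
  exact Nat.mul_le_mul_right _ (hdeg w)

theorem near {G : SimpleGraph V} {Δ : ℕ} {blk : V → Option V} {c : V → ℕ} {w : V}
    {d : V × Option V} (hP : PF G Δ blk c d)
    (h : w ∈ MaF G Δ blk c d ∨ ∃ y ∈ MaF G Δ blk c d, w ∈ KF G Δ blk d y) :
    d.1 ∈ X1 G w ∧ ∀ b, d.2 = some b → b ∈ nb G d.1 := by
  constructor
  · unfold X1
    rw [mem_union]
    rcases h with h | ⟨y, hy, hw⟩
    · left
      exact mem_nb.2 (mem_nb.1 (MaF_sub_nb d h)).symm
    · have hyn := mem_nb.1 (MaF_sub_nb d hy)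
      obtain ⟨x, _ | b⟩ := d
      · right
        change w ∈ nb G y ∩ ss blk at hw
        rw [mem_inter, mem_nb] at hw
        exact mem_biUnion.2 ⟨y, mem_nb.2 hw.1.symm, mem_nb.2 hyn.symm⟩
      · change w ∈ (nb G y ∩ ss blk) ∪ (nb G b ∩ ss blk) ∪ (Mb G Δ blk x b \ {y}) at hw
        rw [mem_union, mem_union, mem_inter, mem_inter, mem_nb, mem_nb, mem_sdiff] at hw
        rcases hw with (hw | hw) | hw
        · right
          exact mem_biUnion.2 ⟨y, mem_nb.2 hw.1.symm, mem_nb.2 hyn.symm⟩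
        · right
          have hb := (mem_Na.1 hP.2).1
          exact mem_biUnion.2 ⟨b, mem_nb.2 hw.1.symm, mem_nb.2 hb.symm⟩
        · left
          exact mem_nb.2 (mem_Mb.1 hw.1).1.1.symm
  · intro b hb
    obtain ⟨x, o⟩ := d
    simp only at hb
    subst hb
    exact mem_nb.2 (mem_Na.1 hP.2).1


theorem not_av_dn {G : SimpleGraph V} {N : ℕ} {F : V → Finset ℕ} {blk : V → Option V}
    {c : V → ℕ} {y : V} {a : ℕ} (ha : a < N) (h1 : a ∉ F y)
    (h2 : a ∉ (dn G blk y).image c) : a ∈ av G N F c (ss blk) y := by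
  unfold av
  rw [mem_sdiff, mem_sdiff, mem_range, sdiff_ss]
  exact ⟨⟨ha, h1⟩, h2⟩

/-- the size of the intersection of two lists -/
theorem av_inter_card {G : SimpleGraph V} {N k : ℕ} {F : V → Finset ℕ} {blk : V → Option V}
    {c : V → ℕ} {y b : V} (hF : ∀ v, (F v).card ≤ k) :
    N ≤ (av G N F c (ss blk) y ∩ av G N F c (ss blk) b).card + 2 * k +
      (dn G blk y).card + (dn G blk b).card := by
  have hsub : range N ⊆ (av G N F c (ss blk) y ∩ av G N F c (ss blk) b) ∪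
      ((F y ∪ F b) ∪ ((dn G blk y).image c ∪ (dn G blk b).image c)) := by
    intro a ha
    rw [mem_range] at ha
    simp only [mem_union, mem_inter]
    by_cases h1 : a ∈ F y
    · tauto
    by_cases h2 : a ∈ F b
    · tauto
    by_cases h3 : a ∈ (dn G blk y).image c
    · tauto
    by_cases h4 : a ∈ (dn G blk b).image c
    · tauto
    exact Or.inl ⟨not_av_dn ha h1 h3, not_av_dn ha h2 h4⟩
  have h := card_le_card hsub
  rw [card_range] at h
  have h1 := card_union_le (av G N F c (ss blk) y ∩ av G N F c (ss blk) b)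
    ((F y ∪ F b) ∪ ((dn G blk y).image c ∪ (dn G blk b).image c))
  have h2 := card_union_le (F y ∪ F b) ((dn G blk y).image c ∪ (dn G blk b).image c)
  have h3 := card_union_le (F y) (F b)
  have h4 := card_union_le ((dn G blk y).image c) ((dn G blk b).image c)
  have h5 : ((dn G blk y).image c).card ≤ (dn G blk y).card := card_image_le
  have h6 : ((dn G blk b).image c).card ≤ (dn G blk b).card := card_image_le
  have h7 := hF y
  have h8 := hF b
  omega

theorem BF_sub {G : SimpleGraph V} {N : ℕ} {F : V → Finset ℕ} {blk : V → Option V}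
    {c : V → ℕ} (hc : ∀ z, blk z ≠ none → c z < N) (d : V × Option V) (y : V) :
    BF G N F blk c d y ⊆ av G N F c (ss blk) y := by
  obtain ⟨x, _ | b⟩ := d
  · intro a ha
    change a ∈ (((dn G blk x).image c) \ ((dn G blk y).image c)) \ F y at ha
    rw [mem_sdiff, mem_sdiff] at ha
    refine not_av_dn ?_ ha.2 ha.1.2
    obtain ⟨z, hz, rfl⟩ := mem_image.1 ha.1.1
    exact hc z (mem_dn.1 hz).2
  · exact inter_subset_left

theorem BF_card {G : SimpleGraph V} {Δ N k h : ℕ} {F : V → Finset ℕ} {blk : V → Option V}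
    {c : V → ℕ} (hF : ∀ v, (F v).card ≤ k) (hN1 : Δ ≤ N) (hN2 : N ≤ Δ + h)
    (hbig : 10 ^ 31 * (k + h + 1) ≤ Δ) (d : V × Option V) (hP : PF G Δ blk c d) (y : V)
    (hy : y ∈ MaF G Δ blk c d) :
    1 / 10 ^ 30 * (N : ℝ) ≤ ((BF G N F blk c d y).card : ℝ) := by
  have hN2' : (N : ℝ) ≤ Δ + h := by exact_mod_cast hN2
  have hN1' : (Δ : ℝ) ≤ N := by exact_mod_cast hN1
  have hbig' : (10 : ℝ) ^ 31 * (k + h + 1) ≤ Δ := by exact_mod_cast hbig
  have hk0 : (0 : ℝ) ≤ k := Nat.cast_nonneg _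
  have hh0 : (0 : ℝ) ≤ h := Nat.cast_nonneg _
  obtain ⟨x, _ | b⟩ := d
  · change 1 / 10 ^ 30 * (N : ℝ) ≤
      (((((dn G blk x).image c) \ ((dn G blk y).image c)) \ F y).card : ℝ)
    change y ∈ Wt G Δ blk c x at hy
    unfold Wt at hy
    rw [mem_filter] at hy
    have h1 := hy.2
    have h2 : (((dn G blk x).image c) \ ((dn G blk y).image c)).card ≤
        ((((dn G blk x).image c) \ ((dn G blk y).image c)) \ F y).card + (F y).card :=
      card_le_card_sdiff_add_card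
    have h3 : ((((dn G blk x).image c) \ ((dn G blk y).image c)).card : ℝ) ≤
        (((((dn G blk x).image c) \ ((dn G blk y).image c)) \ F y).card : ℝ) + k := by
      exact_mod_cast h2.trans (Nat.add_le_add_left (hF y) _)
    have e1 : (Δ : ℝ) / 10 ^ 29 = 10 * (Δ / 10 ^ 30) := by ring
    have e2 : 1 / 10 ^ 30 * (N : ℝ) ≤ Δ / 10 ^ 30 + h := by
      have : 1 / 10 ^ 30 * (N : ℝ) ≤ 1 / 10 ^ 30 * (Δ + h) :=
        mul_le_mul_of_nonneg_left hN2' (by positivity)
      have h4 : (1 : ℝ) / 10 ^ 30 * (Δ + h) = Δ / 10 ^ 30 + h * (1 / 10 ^ 30) := by ring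
      have h5 : (h : ℝ) * (1 / 10 ^ 30) ≤ h * 1 := by
        apply mul_le_mul_of_nonneg_left _ hh0
        norm_num
      linarith
    have e3 : (k : ℝ) + h ≤ Δ / 10 ^ 30 := by
      rw [le_div_iff₀ (by positivity)]
      nlinarith
    rw [e1] at h1
    have : (0:ℝ) ≤ Δ / 10 ^ 30 := by positivity
    linarith
  · change 1 / 10 ^ 30 * (N : ℝ) ≤
      ((av G N F c (ss blk) y ∩ av G N F c (ss blk) b).card : ℝ)
    change y ∈ Mb G Δ blk x b at hy
    rw [mem_Mb] at hy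
    have hb := mem_Na.1 hP.2
    have h1 := nonSb_dn hy.1.2.1 hy.1.2.2
    have h2 := nonSb_dn hb.2.1 hb.2.2
    have h3 : (N : ℝ) ≤ ((av G N F c (ss blk) y ∩ av G N F c (ss blk) b).card : ℝ) + 2 * k +
        ((dn G blk y).card : ℝ) + ((dn G blk b).card : ℝ) := by
      exact_mod_cast av_inter_card (G := G) (c := c) (blk := blk) (y := y) (b := b) hF
    have h4 : 1 / 10 ^ 30 * (N : ℝ) ≤ 1 / 100 * N := by
      apply mul_le_mul_of_nonneg_right _ (Nat.cast_nonneg _)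
      norm_num
    have h5 : (2 : ℝ) * k ≤ 1 / 100 * Δ := by nlinarith
    linarith

theorem KF_sub {G : SimpleGraph V} {Δ : ℕ} {blk : V → Option V} (d : V × Option V) (y : V) :
    nb G y ∩ ss blk ⊆ KF G Δ blk d y := by
  obtain ⟨x, _ | b⟩ := d
  · exact Subset.refl _
  · change nb G y ∩ ss blk ⊆ (nb G y ∩ ss blk) ∪ (nb G b ∩ ss blk) ∪ (Mb G Δ blk x b \ {y})
    exact subset_union_left.trans subset_union_left

theorem KF_card {G : SimpleGraph V} {Δ : ℕ} {blk : V → Option V}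
    (hdeg : ∀ v, (nb G v).card ≤ Δ) (d : V × Option V) (y : V) :
    (KF G Δ blk d y).card ≤ 3 * Δ := by
  obtain ⟨x, _ | b⟩ := d
  · change (nb G y ∩ ss blk).card ≤ 3 * Δ
    have := (card_le_card (inter_subset_left (s₁ := nb G y) (s₂ := ss blk))).trans (hdeg y)
    omega
  · change ((nb G y ∩ ss blk) ∪ (nb G b ∩ ss blk) ∪ (Mb G Δ blk x b \ {y})).card ≤ 3 * Δ
    have h1 := (card_le_card (inter_subset_left (s₁ := nb G y) (s₂ := ss blk))).trans (hdeg y)
    have h2 := (card_le_card (inter_subset_left (s₁ := nb G b) (s₂ := ss blk))).trans (hdeg b)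
    have h3 : (Mb G Δ blk x b \ {y}).card ≤ Δ := by
      refine le_trans (card_le_card (sdiff_subset.trans ?_)) (hdeg x)
      exact (filter_subset _ _).trans (filter_subset _ _)
    have h4 := card_union_le ((nb G y ∩ ss blk) ∪ (nb G b ∩ ss blk)) (Mb G Δ blk x b \ {y})
    have h5 := card_union_le (nb G y ∩ ss blk) (nb G b ∩ ss blk)
    omega

theorem KF_self {G : SimpleGraph V} {Δ : ℕ} {blk : V → Option V} {c : V → ℕ}
    (d : V × Option V) (y : V) (hy : y ∈ MaF G Δ blk c d) : y ∉ KF G Δ blk d y := by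
  obtain ⟨x, _ | b⟩ := d
  · change y ∉ nb G y ∩ ss blk
    rw [mem_inter, mem_nb]
    exact fun h => G.irrefl h.1
  · change y ∉ (nb G y ∩ ss blk) ∪ (nb G b ∩ ss blk) ∪ (Mb G Δ blk x b \ {y})
    change y ∈ Mb G Δ blk x b at hy
    rw [mem_Mb] at hy
    rw [mem_union, mem_union, mem_inter, mem_inter, mem_nb, mem_nb, mem_sdiff, mem_singleton]
    rintro ((h | h) | h)
    · exact G.irrefl h.1
    · exact hy.2.2 h.1.symm
    · exact h.2 rfl

/-- every vertex is in at most `Δ ^ 4` demands -/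
theorem demand_count {G : SimpleGraph V} {Δ : ℕ} {blk : V → Option V} {c : V → ℕ}
    (hΔ : 3 ≤ Δ) (hdeg : ∀ v, (nb G v).card ≤ Δ) (Pi : V → Prop) (w : V) :
    (univ.filter (fun d : {d : V × Option V // PF G Δ blk c d} =>
      w ∈ MaF G Δ blk c d.1 ∨ ∃ y ∈ MaF G Δ blk c d.1, w ∈ KF G Δ blk d.1 y)).card +
    (univ.filter (fun d : {x : V // Pi x} => w ∈ MiF G Δ blk d.1)).card ≤ Δ ^ 4 := by
  have h1 : (univ.filter (fun d : {d : V × Option V // PF G Δ blk c d} =>
      w ∈ MaF G Δ blk c d.1 ∨ ∃ y ∈ MaF G Δ blk c d.1, w ∈ KF G Δ blk d.1 y)).card ≤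
      (Δ + Δ * Δ) * (Δ + 1) := by
    have hinj : Function.Injective (fun d : {d : V × Option V // PF G Δ blk c d} => d.1) :=
      Subtype.val_injective
    rw [← card_image_of_injective _ hinj]
    have hsub : (univ.filter (fun d : {d : V × Option V // PF G Δ blk c d} =>
        w ∈ MaF G Δ blk c d.1 ∨ ∃ y ∈ MaF G Δ blk c d.1, w ∈ KF G Δ blk d.1 y)).image
          (fun d => d.1) ⊆ (X1 G w).biUnion (fun x => (insertNone (nb G x)).image
            (fun o => (x, o))) := by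
      intro d hd
      obtain ⟨⟨d', hP⟩, hd', rfl⟩ := mem_image.1 hd
      rw [mem_filter] at hd'
      obtain ⟨hn1, hn2⟩ := near hP hd'.2
      refine mem_biUnion.2 ⟨d'.1, hn1, mem_image.2 ⟨d'.2, ?_, rfl⟩⟩
      rw [mem_insertNone]
      intro b hb
      exact hn2 b hb
    refine (card_le_card hsub).trans (card_biUnion_le.trans ?_)
    refine (sum_le_card_nsmul _ _ (Δ + 1) fun x _ => ?_).trans ?_
    · refine card_image_le.trans ?_
      rw [card_insertNone]
      exact Nat.add_le_add_right (hdeg x) 1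
    · rw [smul_eq_mul]
      exact Nat.mul_le_mul_right _ (X1_card hdeg w)
  have h2 : (univ.filter (fun d : {x : V // Pi x} => w ∈ MiF G Δ blk d.1)).card ≤ Δ := by
    have hinj : Function.Injective (fun d : {x : V // Pi x} => d.1) :=
      Subtype.val_injective
    rw [← card_image_of_injective _ hinj]
    refine (card_le_card ?_).trans (hdeg w)
    intro x hx
    obtain ⟨⟨x', hP⟩, hx', rfl⟩ := mem_image.1 hx
    rw [mem_filter] at hx'
    exact mem_nb.2 (mem_nb.1 (MiF_sub_nb x' hx'.2)).symm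
  refine (Nat.add_le_add h1 h2).trans ?_
  have h3 : (Δ + Δ * Δ) * (Δ + 1) + Δ = Δ ^ 3 + 2 * Δ ^ 2 + 2 * Δ := by ring
  rw [h3]
  have h4 : 3 * Δ ^ 3 ≤ Δ ^ 4 := by
    calc 3 * Δ ^ 3 ≤ Δ * Δ ^ 3 := Nat.mul_le_mul_right _ hΔ
      _ = Δ ^ 4 := by ring
  have h5 : 3 * Δ ^ 2 ≤ Δ ^ 3 := by
    calc 3 * Δ ^ 2 ≤ Δ * Δ ^ 2 := Nat.mul_le_mul_right _ hΔ
      _ = Δ ^ 3 := by ring
  have h6 : 3 * Δ ≤ Δ ^ 2 := by
    calc 3 * Δ ≤ Δ * Δ := Nat.mul_le_mul_right _ hΔ
      _ = Δ ^ 2 := by ring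
  nlinarith


/-! ## The results -/

theorem q1_of {G : SimpleGraph V} {Δ : ℕ} {blk : V → Option V} {c c' : V → ℕ} {U : Finset V}
    {κ : ℝ} {x : V} (hdeg : (nb G x).card ≤ Δ) (hU : U ⊆ ss blk)
    (hc : ∀ z, z ∉ ss blk → c' z = c z) (hκ : 0 < κ)
    (hPP : ((((dn G blk x).image c).card : ℝ) + Δ / 10 ^ 29 ≤ ((dn G blk x).card : ℝ)) ∨
      ((Δ : ℝ) / 10 ^ 29 ≤ ((Wt G Δ blk c x).card : ℝ) ∧
        κ * ((Wt G Δ blk c x).card : ℝ) ≤ (((Wt G Δ blk c x).filter (fun y => y ∉ U ∧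
          c' y ∈ (dn G blk x).image c)).card : ℝ))) :
    (((nb G x \ U).image c').card : ℝ) + ((nb G x ∩ U).card : ℝ) + min κ 1 / 10 ^ 29 * Δ ≤
      Δ := by
  have hdeg' : ((nb G x).card : ℝ) ≤ Δ := by exact_mod_cast hdeg
  have hΔ0 : (0 : ℝ) ≤ Δ := Nat.cast_nonneg _
  have himg : (dn G blk x).image c' = (dn G blk x).image c := by
    apply image_congr
    intro z hz
    exact hc z (by rw [mem_ss]; exact (mem_dn.1 hz).2)
  rcases hPP with h | ⟨h1, h2⟩
  · have hsub : (nb G x \ U).image c' ⊆ (dn G blk x).image c ∪ (sn G blk x \ U).image c' := by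
      intro a ha
      obtain ⟨z, hz, rfl⟩ := mem_image.1 ha
      rw [mem_sdiff, mem_nb] at hz
      rw [mem_union]
      by_cases hb : blk z = none
      · right
        exact mem_image_of_mem _ (mem_sdiff.2 ⟨mem_sn.2 ⟨hz.1, hb⟩, hz.2⟩)
      · left
        rw [← himg]
        exact mem_image_of_mem _ (mem_dn.2 ⟨hz.1, hb⟩)
    have e1 : ((nb G x \ U).image c').card ≤ ((dn G blk x).image c).card +
        (sn G blk x \ U).card :=
      (card_le_card hsub).trans ((card_union_le _ _).trans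
        (Nat.add_le_add_left card_image_le _))
    have e2 : nb G x ∩ U = sn G blk x ∩ U := by
      ext z
      rw [mem_inter, mem_inter, mem_nb, mem_sn]
      constructor
      · rintro ⟨h1, h2⟩
        exact ⟨⟨h1, mem_ss.1 (hU h2)⟩, h2⟩
      · rintro ⟨h1, h2⟩
        exact ⟨h1.1, h2⟩
    have e3 : (sn G blk x \ U).card + (sn G blk x ∩ U).card = (sn G blk x).card :=
      card_sdiff_add_card_inter _ _
    have e4 : (dn G blk x).card + (sn G blk x).card = (nb G x).card := by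
      unfold dn sn
      rw [add_comm]
      exact card_filter_add_card_filter_not _
    rw [e2]
    have e1' : (((nb G x \ U).image c').card : ℝ) ≤ (((dn G blk x).image c).card : ℝ) +
        ((sn G blk x \ U).card : ℝ) := by exact_mod_cast e1
    have e3' : ((sn G blk x \ U).card : ℝ) + ((sn G blk x ∩ U).card : ℝ) =
        ((sn G blk x).card : ℝ) := by exact_mod_cast e3
    have e4' : ((dn G blk x).card : ℝ) + ((sn G blk x).card : ℝ) = ((nb G x).card : ℝ) := by
      exact_mod_cast e4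
    have e5 : min κ 1 / 10 ^ 29 * (Δ : ℝ) ≤ Δ / 10 ^ 29 := by
      have : min κ 1 / 10 ^ 29 * (Δ : ℝ) = min κ 1 * (Δ / 10 ^ 29) := by ring
      rw [this]
      calc min κ 1 * ((Δ : ℝ) / 10 ^ 29) ≤ 1 * (Δ / 10 ^ 29) :=
            mul_le_mul_of_nonneg_right (min_le_right _ _) (by positivity)
        _ = _ := one_mul _
    linarith
  · set Y := (Wt G Δ blk c x).filter (fun y => y ∉ U ∧ c' y ∈ (dn G blk x).image c) with hY
    have hYn : ∀ y ∈ Y, y ∈ nb G x \ U ∧ blk y = none ∧ c' y ∈ (dn G blk x).image c := by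
      intro y hy
      rw [hY, mem_filter] at hy
      have h3 := hy.1
      unfold Wt at h3
      rw [mem_filter, mem_sn] at h3
      exact ⟨mem_sdiff.2 ⟨mem_nb.2 h3.1.1, hy.2.1⟩, h3.1.2, hy.2.2⟩
    have hsub : (nb G x \ U).image c' ⊆ ((nb G x \ U) \ Y).image c' := by
      intro a ha
      obtain ⟨z, hz, rfl⟩ := mem_image.1 ha
      by_cases hzY : z ∈ Y
      · obtain ⟨_, _, h5⟩ := hYn z hzY
        rw [← himg] at h5
        obtain ⟨z', hz', h6⟩ := mem_image.1 h5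
        rw [← h6]
        refine mem_image_of_mem _ (mem_sdiff.2 ⟨mem_sdiff.2 ⟨mem_nb.2 (mem_dn.1 hz').1, ?_⟩, ?_⟩)
        · intro h7
          exact (mem_dn.1 hz').2 (mem_ss.1 (hU h7))
        · intro h7
          exact (mem_dn.1 hz').2 (hYn z' h7).2.1
      · exact mem_image_of_mem _ (mem_sdiff.2 ⟨hz, hzY⟩)
    have e1 : ((nb G x \ U).image c').card ≤ ((nb G x \ U) \ Y).card :=
      (card_le_card hsub).trans card_image_le
    have e2 : ((nb G x \ U) \ Y).card + Y.card = (nb G x \ U).card :=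
      card_sdiff_add_card_eq_card fun y hy => (hYn y hy).1
    have e3 : (nb G x \ U).card + (nb G x ∩ U).card = (nb G x).card :=
      card_sdiff_add_card_inter _ _
    have e1' : (((nb G x \ U).image c').card : ℝ) ≤ (((nb G x \ U) \ Y).card : ℝ) := by
      exact_mod_cast e1
    have e2' : (((nb G x \ U) \ Y).card : ℝ) + (Y.card : ℝ) = ((nb G x \ U).card : ℝ) := by
      exact_mod_cast e2
    have e3' : ((nb G x \ U).card : ℝ) + ((nb G x ∩ U).card : ℝ) = ((nb G x).card : ℝ) := by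
      exact_mod_cast e3
    have e5 : min κ 1 / 10 ^ 29 * (Δ : ℝ) ≤ Y.card := by
      calc min κ 1 / 10 ^ 29 * (Δ : ℝ) = min κ 1 * (Δ / 10 ^ 29) := by ring
        _ ≤ κ * (Δ / 10 ^ 29) :=
            mul_le_mul_of_nonneg_right (min_le_left _ _) (by positivity)
        _ ≤ κ * ((Wt G Δ blk c x).card : ℝ) := mul_le_mul_of_nonneg_left h1 hκ.le
        _ ≤ _ := h2
    linarith

/-- free colours at `b` given by the coloured vertices of `M_b` -/
theorem q3_of {G : SimpleGraph V} {Δ N : ℕ} {F : V → Finset ℕ} {blk : V → Option V}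
    {c c' : V → ℕ} {U : Finset V} {κ : ℝ} {x b : V}
    (hc : ∀ z, z ∉ ss blk → c' z = c z) (hκ : 0 < κ)
    (hM : (Δ : ℝ) / (4 * 10 ^ 26) ≤ ((Mb G Δ blk x b).card : ℝ))
    (hgood : κ * ((Mb G Δ blk x b).card : ℝ) ≤ (((Mb G Δ blk x b).filter (fun y => y ∉ U ∧
      c' y ∈ av G N F c (ss blk) y ∩ av G N F c (ss blk) b ∧
      ∀ w ∈ (nb G y ∩ ss blk) ∪ (nb G b ∩ ss blk) ∪ (Mb G Δ blk x b \ {y}), w ∈ ss blk →
        w ∉ U → c' w ≠ c' y)).card : ℝ)) :
    min κ 1 / 10 ^ 29 * Δ ≤ ((av G N F c' U b ∩ (nb G x \ U).image c').card : ℝ) := by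
  set Y := (Mb G Δ blk x b).filter (fun y => y ∉ U ∧
      c' y ∈ av G N F c (ss blk) y ∩ av G N F c (ss blk) b ∧
      ∀ w ∈ (nb G y ∩ ss blk) ∪ (nb G b ∩ ss blk) ∪ (Mb G Δ blk x b \ {y}), w ∈ ss blk →
        w ∉ U → c' w ≠ c' y) with hY
  have hΔ0 : (0 : ℝ) ≤ Δ := Nat.cast_nonneg _
  have hinj : Set.InjOn c' (Y : Set V) := by
    intro y hy y' hy' h
    by_contra hne
    rw [mem_coe, hY, mem_filter] at hy hy'
    refine hy.2.2.2 y' ?_ ?_ hy'.2.1 h.symm
    · rw [mem_union]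
      right
      rw [mem_sdiff, mem_singleton]
      exact ⟨hy'.1, fun h => hne h.symm⟩
    · exact mem_ss.2 (mem_Mb.1 hy'.1).1.2.1
  have hsub : Y.image c' ⊆ av G N F c' U b ∩ (nb G x \ U).image c' := by
    intro a ha
    obtain ⟨y, hy, rfl⟩ := mem_image.1 ha
    rw [hY, mem_filter] at hy
    obtain ⟨hyM, hyU, hyB, hyK⟩ := hy
    rw [mem_inter] at hyB ⊢
    constructor
    · have h1 := hyB.2
      unfold av at h1 ⊢
      rw [mem_sdiff] at h1 ⊢
      refine ⟨h1.1, ?_⟩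
      intro h2
      obtain ⟨w, hw, h3⟩ := mem_image.1 h2
      rw [mem_sdiff] at hw
      by_cases hws : w ∈ ss blk
      · refine hyK w ?_ hws hw.2 h3
        rw [mem_union, mem_union]
        left; right
        exact mem_inter.2 ⟨hw.1, hws⟩
      · refine h1.2 (mem_image.2 ⟨w, mem_sdiff.2 ⟨hw.1, hws⟩, ?_⟩)
        rw [← hc w hws]
        exact h3
    · exact mem_image_of_mem _ (mem_sdiff.2 ⟨mem_nb.2 (mem_Mb.1 hyM).1.1, hyU⟩)
  have hcard := card_le_card hsub
  rw [card_image_of_injOn hinj] at hcard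
  have hcard' : (Y.card : ℝ) ≤ ((av G N F c' U b ∩ (nb G x \ U).image c').card : ℝ) := by
    exact_mod_cast hcard
  refine le_trans ?_ hcard'
  calc min κ 1 / 10 ^ 29 * (Δ : ℝ) = min κ 1 * (Δ / 10 ^ 29) := by ring
    _ ≤ κ * (Δ / 10 ^ 29) :=
        mul_le_mul_of_nonneg_right (min_le_left _ _) (by positivity)
    _ ≤ κ * (Δ / (4 * 10 ^ 26)) := by
        apply mul_le_mul_of_nonneg_left _ hκ.le
        apply div_le_div_of_nonneg_left hΔ0 (by positivity)
        norm_num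
    _ ≤ κ * ((Mb G Δ blk x b).card : ℝ) := mul_le_mul_of_nonneg_left hM hκ.le
    _ ≤ _ := hgood

end defs

end SP1

theorem stmt_SP1 (hSTEP : Stmt_STEP.{u}) : Stmt_SP1.{u} := by
  obtain ⟨κ, Δ1, hκ, hstep⟩ := hSTEP (1 / 10 ^ 30) (1 / 10 ^ 30) (by positivity) (by norm_num)
    (by positivity)
  refine ⟨min κ 1 / 10 ^ 29, by positivity, ?_⟩
  intro k h
  refine ⟨max Δ1 (10 ^ 31 * (k + h + 1)), ?_⟩
  intro V _ G Δ N t F blk c hΔ hN1 hN2 hdeg hF hdec hst hPP
  have hΔ1 : Δ1 ≤ Δ := (le_max_left _ _).trans hΔ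
  have hbig : 10 ^ 31 * (k + h + 1) ≤ Δ := (le_max_right _ _).trans hΔ
  have hΔpos : 3 ≤ Δ := by omega
  have hN2' : N ≤ 2 * Δ := by omega
  have hNΔ : Δ ≤ N := by omega
  have hΔ0 : (0 : ℝ) ≤ Δ := Nat.cast_nonneg _
  have hclt : ∀ z, blk z ≠ none → c z < N := fun z hz =>
    hst.lt z (by rw [SP1.mem_ss]; exact hz)
  let Pi : V → Prop := fun x => (Δ : ℝ) / 10 ^ 30 ≤ ((SP1.MiF G Δ blk x).card : ℝ)
  obtain ⟨c', U', hU', hc', hst', hload, hact, hidle⟩ := hstep G Δ N t F c (ss blk)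
    {d : V × Option V // SP1.PF G Δ blk c d} {x : V // Pi x}
    (fun d => SP1.MaF G Δ blk c d.1) (fun d => SP1.BF G N F blk c d.1)
    (fun d => SP1.KF G Δ blk d.1) (fun x => SP1.MiF G Δ blk x.1)
    hΔ1 hNΔ hN2' hdeg hst
    (by
      rintro ⟨d, hd⟩
      refine ⟨?_, (card_le_card (SP1.MaF_sub_nb d)).trans (hdeg _), SP1.MaF_sub_ss d⟩
      obtain ⟨x, _ | b⟩ := d
      · refine le_trans ?_ hd
        rw [one_div_mul_eq_div]
        apply div_le_div_of_nonneg_left hΔ0 (by positivity)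
        norm_num
      · refine le_trans ?_ hd.1
        rw [one_div_mul_eq_div]
        apply div_le_div_of_nonneg_left hΔ0 (by positivity)
        norm_num)
    (by
      rintro ⟨x, hx⟩
      refine ⟨?_, (card_le_card (SP1.MiF_sub_nb x)).trans (hdeg _), SP1.MiF_sub_ss x⟩
      rw [one_div_mul_eq_div]
      exact hx)
    (by
      rintro ⟨d, hd⟩ y hy
      exact ⟨SP1.BF_sub hclt d y, SP1.BF_card hF hNΔ hN2 hbig d hd y hy⟩)
    (by
      rintro ⟨d, hd⟩ y hy
      exact ⟨SP1.KF_sub d y, SP1.KF_card hdeg d y, SP1.KF_self d y hy⟩)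
    (fun w => SP1.demand_count hΔpos hdeg Pi w)
  refine ⟨c', U', hU', hc', hst', hload, ?_, ?_, ?_⟩
  · -- q1
    intro x hx hdx hty
    apply SP1.q1_of (hdeg x) hU' hc' hκ
    rcases hPP x hx hdx hty with h1 | h1
    · exact Or.inl h1
    · right
      refine ⟨h1, ?_⟩
      have h2 := hact ⟨(x, none), h1⟩
      refine h2.trans ?_
      have : (SP1.Wt G Δ blk c x).filter (fun y => y ∉ U' ∧ c' y ∈ SP1.BF G N F blk c (x, none) y ∧
          ∀ w ∈ SP1.KF G Δ blk (x, none) y, w ∈ ss blk → w ∉ U' → c' w ≠ c' y) ⊆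
          (SP1.Wt G Δ blk c x).filter (fun y => y ∉ U' ∧ c' y ∈ (dn G blk x).image c) := by
        intro y hy
        rw [mem_filter] at hy ⊢
        refine ⟨hy.1, hy.2.1, ?_⟩
        have h3 := hy.2.2.1
        change c' y ∈ (((dn G blk x).image c) \ ((dn G blk y).image c)) \ F y at h3
        rw [mem_sdiff, mem_sdiff] at h3
        exact h3.1.1
      exact_mod_cast card_le_card this
  · -- q2
    intro x hx hSb hs
    have e0 : SP1.MiF G Δ blk x = sbn G Δ blk x := by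
      unfold SP1.MiF; rw [if_pos hs]
    have hPi : Pi x := by
      change (Δ : ℝ) / 10 ^ 30 ≤ ((SP1.MiF G Δ blk x).card : ℝ)
      rw [e0]
      refine le_trans ?_ hs
      apply div_le_div_of_nonneg_left hΔ0 (by positivity)
      norm_num
    have h1 := hidle ⟨x, hPi⟩
    simp only at h1
    rw [e0] at h1
    refine le_trans ?_ h1
    calc min κ 1 / 10 ^ 29 * (Δ : ℝ) = min κ 1 * (Δ / 10 ^ 29) := by ring
      _ ≤ κ * (Δ / 10 ^ 29) :=
          mul_le_mul_of_nonneg_right (min_le_left _ _) (by positivity)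
      _ ≤ κ * (Δ / (8 * 10 ^ 26)) := by
          apply mul_le_mul_of_nonneg_left _ hκ.le
          apply div_le_div_of_nonneg_left hΔ0 (by positivity)
          norm_num
      _ ≤ _ := mul_le_mul_of_nonneg_left hs hκ.le
  · -- q3
    intro x hx hdx hSb hdn hsbn
    have hmis : 2 * (1 / 10 ^ 13 : ℝ) ^ 2 * (Δ : ℝ) ^ 2 ≤ ((mis G (nb G x)).card : ℝ) := by
      rcases hdec.sparse x hx with h1 | h1
      · exfalso
        have : (1 - (1 / 10 ^ 13 : ℝ) ^ 2) * (Δ : ℝ) = (1 - 1 / 10 ^ 26) * (Δ : ℝ) := by ring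
        rw [this] at h1
        linarith
      · exact h1
    have hL := SP1.Lx_card (by omega) (hdeg x) hdn hsbn hmis
    have e0 : SP1.MiF G Δ blk x = SP1.Lx G Δ blk x := by
      unfold SP1.MiF; rw [if_neg (not_le.2 hsbn)]
    have hPi : Pi x := by
      change (Δ : ℝ) / 10 ^ 30 ≤ ((SP1.MiF G Δ blk x).card : ℝ)
      rw [e0]
      refine le_trans ?_ hL
      apply div_le_div_of_nonneg_left hΔ0 (by positivity)
      norm_num
    have h1 := hidle ⟨x, hPi⟩
    simp only at h1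
    rw [e0] at h1
    have hsub : SP1.Lx G Δ blk x ∩ U' ⊆ (nb G x ∩ U').filter (fun b =>
        min κ 1 / 10 ^ 29 * (Δ : ℝ) ≤
          ((av G N F c' U' b ∩ (nb G x \ U').image c').card : ℝ)) := by
      intro b hb
      rw [mem_inter] at hb
      have hb1 := hb.1
      unfold SP1.Lx at hb1
      rw [mem_filter] at hb1
      rw [mem_filter, mem_inter]
      refine ⟨⟨SP1.mem_nb.2 (SP1.mem_Na.1 hb1.1).1, hb.2⟩, ?_⟩
      exact SP1.q3_of hc' hκ hb1.2 (hact ⟨(x, some b), ⟨hb1.2, hb1.1⟩⟩)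
    have h2 : ((SP1.Lx G Δ blk x ∩ U').card : ℝ) ≤ (((nb G x ∩ U').filter (fun b =>
        min κ 1 / 10 ^ 29 * (Δ : ℝ) ≤
          ((av G N F c' U' b ∩ (nb G x \ U').image c').card : ℝ))).card : ℝ) := by
      exact_mod_cast card_le_card hsub
    refine le_trans ?_ h2
    refine le_trans ?_ h1
    calc min κ 1 / 10 ^ 29 * (Δ : ℝ) = min κ 1 * (Δ / 10 ^ 29) := by ring
      _ ≤ κ * (Δ / 10 ^ 29) :=
          mul_le_mul_of_nonneg_right (min_le_left _ _) (by positivity)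
      _ ≤ κ * (Δ / 10 ^ 26) := by
          apply mul_le_mul_of_nonneg_left _ hκ.le
          apply div_le_div_of_nonneg_left hΔ0 (by positivity)
          norm_num
      _ ≤ _ := mul_le_mul_of_nonneg_left hL hκ.le

end Pool.Agent.Work.MP_db9399_all
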